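import Pool.Agent.N718.LB.Stm

set_option autoImplicit false

/-! Part LOC of project LB (helper718): a lattice point whose coordinates are coprime to `M`. -/

namespace Pool.Agent.N11.LB

open Finset Pool.Agent.N718.LB

/-- the case `p = 2` -/
lemma loc_two' : ∀ x y : Fin 2 × Fin 2 × Fin 2,
    ((x.2.1 * y.2.2 - x.2.2 * y.2.1 ≠ 0 ∨ x.2.2 * y.1 - x.1 * y.2.2 ≠ 0) ∧
    (x.2.1 * y.2.2 - x.2.2 * y.2.1 ≠ 0 ∨ x.1 * y.2.1 - x.2.1 * y.1 ≠ 0) ∧
    (x.2.2 * y.1 - x.1 * y.2.2 ≠ 0 ∨ x.1 * y.2.1 - x.2.1 * y.1 ≠ 0) ∧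
    (x.2.1 * y.2.2 - x.2.2 * y.2.1) + (x.2.2 * y.1 - x.1 * y.2.2) +
      (x.1 * y.2.1 - x.2.1 * y.1) = 0) →
    ∃ b : Fin 2 × Fin 2, x.1 * b.1 + y.1 * b.2 ≠ 0 ∧ x.2.1 * b.1 + y.2.1 * b.2 ≠ 0 ∧
      x.2.2 * b.1 + y.2.2 * b.2 ≠ 0 := by
  decide

lemma loc_two (v0 v1 v2 w0 w1 w2 : ZMod 2)
    (h1 : v1 * w2 - v2 * w1 ≠ 0 ∨ v2 * w0 - v0 * w2 ≠ 0)
    (h2 : v1 * w2 - v2 * w1 ≠ 0 ∨ v0 * w1 - v1 * w0 ≠ 0)
    (h3 : v2 * w0 - v0 * w2 ≠ 0 ∨ v0 * w1 - v1 * w0 ≠ 0)
    (h4 : (v1 * w2 - v2 * w1) + (v2 * w0 - v0 * w2) + (v0 * w1 - v1 * w0) = 0) :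
    ∃ b0 b1 : ZMod 2, v0 * b0 + w0 * b1 ≠ 0 ∧ v1 * b0 + w1 * b1 ≠ 0 ∧ v2 * b0 + w2 * b1 ≠ 0 := by
  obtain ⟨b, hb⟩ := loc_two' (v0, v1, v2) (w0, w1, w2) ⟨h1, h2, h3, h4⟩
  exact ⟨b.1, b.2, hb⟩

/-- the case `3 ≤ p` -/
lemma loc_big (p : ℕ) [Fact p.Prime] (hp : 3 ≤ p) (v w : Fin 3 → ZMod p)
    (h : ∀ i, v i ≠ 0 ∨ w i ≠ 0) : ∃ b0 b1 : ZMod p, ∀ i, v i * b0 + w i * b1 ≠ 0 := by
  classical
  let f : Option (ZMod p) → ZMod p × ZMod p := fun o => o.elim (0, 1) (fun t => (1, t))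
  let B : Fin 3 → Finset (Option (ZMod p)) := fun i =>
    univ.filter (fun o => v i * (f o).1 + w i * (f o).2 = 0)
  have hB : ∀ i, (B i).card ≤ 1 := by
    intro i
    rw [card_le_one]
    intro x hx y hy
    have hx' := (mem_filter.1 hx).2
    have hy' := (mem_filter.1 hy).2
    rcases x with _ | x <;> rcases y with _ | y
    · rfl
    · simp only [f, Option.elim_none, Option.elim_some, mul_zero, zero_add, mul_one] at hx' hy'
      rw [hx', zero_mul, add_zero] at hy'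
      exact ((h i).elim (fun h => h hy') (fun h => h hx')).elim
    · simp only [f, Option.elim_none, Option.elim_some, mul_zero, zero_add, mul_one] at hx' hy'
      rw [hy', zero_mul, add_zero] at hx'
      exact ((h i).elim (fun h => h hx') (fun h => h hy')).elim
    · simp only [f, Option.elim_some, mul_one] at hx' hy'
      have h1 : w i * (x - y) = 0 := by
        rw [mul_sub]
        have := congrArg₂ (· - ·) hx' hy'
        simp only [add_sub_add_left_eq_sub, sub_zero] at this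
        exact this
      rcases mul_eq_zero.1 h1 with h2 | h2
      · rw [h2, zero_mul, add_zero] at hx'
        exact ((h i).elim (fun h => h hx') (fun h => h h2)).elim
      · rw [sub_eq_zero.1 h2]
  have hcard : (univ.biUnion B).card < (univ : Finset (Option (ZMod p))).card := by
    have h1 := card_biUnion_le (s := (univ : Finset (Fin 3))) (t := B)
    have h2 : ∑ i, (B i).card ≤ 3 := by
      rw [Fin.sum_univ_three]
      have := hB 0; have := hB 1; have := hB 2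
      omega
    rw [card_univ, Fintype.card_option, ZMod.card]
    omega
  obtain ⟨o, -, ho⟩ := exists_mem_notMem_of_card_lt_card hcard
  refine ⟨(f o).1, (f o).2, fun i hi => ho (mem_biUnion.2 ⟨i, mem_univ _, ?_⟩)⟩
  exact mem_filter.2 ⟨mem_univ _, hi⟩

/-- the local statement -/
lemma loc_prime (p : ℕ) (hp : p.Prime) (v w : Fin 3 → ℤ)
    (hc : ∀ i j, i ≠ j → IsCoprime (cr v w i) (cr v w j))
    (he : Even (cr v w 0 + cr v w 1 + cr v w 2)) :
    ∃ b0 b1 : ℕ, ∀ i, ((v i : ZMod p) * b0 + (w i : ZMod p) * b1) ≠ 0 := by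
  have := Fact.mk hp
  have hnot : ∀ i j, i ≠ j → ((cr v w i : ℤ) : ZMod p) ≠ 0 ∨ ((cr v w j : ℤ) : ZMod p) ≠ 0 := by
    intro i j hij
    by_contra hcon
    push Not at hcon
    obtain ⟨s, t, hst⟩ := hc i j hij
    have h1 := congrArg (fun z : ℤ => (z : ZMod p)) hst
    simp only [Int.cast_add, Int.cast_mul, hcon.1, hcon.2, mul_zero, add_zero, Int.cast_one] at h1
    exact zero_ne_one h1
  have e0 : ((cr v w 0 : ℤ) : ZMod p) = (v 1 : ZMod p) * w 2 - v 2 * w 1 := by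
    simp [cr]
  have e1 : ((cr v w 1 : ℤ) : ZMod p) = (v 2 : ZMod p) * w 0 - v 0 * w 2 := by
    simp [cr]
  have e2 : ((cr v w 2 : ℤ) : ZMod p) = (v 0 : ZMod p) * w 1 - v 1 * w 0 := by
    simp [cr]
  rcases hp.two_le.lt_or_eq with h3 | h2
  · obtain ⟨b0, b1, hb⟩ := loc_big p h3 (fun i => (v i : ZMod p)) (fun i => (w i : ZMod p)) (by
      intro i
      by_contra hcon
      push Not at hcon
      obtain ⟨hv, hw⟩ := hcon
      fin_cases i
      · have h := hnot 1 2 (by decide)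
        rw [e1, e2] at h
        simp only [Fin.zero_eta] at hv hw
        rw [hv, hw] at h
        simp at h
      · have h := hnot 0 2 (by decide)
        rw [e0, e2] at h
        simp only [Fin.mk_one] at hv hw
        rw [hv, hw] at h
        simp at h
      · have h := hnot 0 1 (by decide)
        rw [e0, e1] at h
        simp only [Fin.reduceFinMk] at hv hw
        rw [hv, hw] at h
        simp at h)
    refine ⟨b0.val, b1.val, fun i => ?_⟩
    rw [ZMod.natCast_zmod_val, ZMod.natCast_zmod_val]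
    exact hb i
  · subst h2
    obtain ⟨k, hk⟩ := he
    have hs : ((cr v w 0 : ℤ) : ZMod 2) + ((cr v w 1 : ℤ) : ZMod 2) + ((cr v w 2 : ℤ) : ZMod 2)
        = 0 := by
      have h1 := congrArg (fun z : ℤ => (z : ZMod 2)) hk
      simp only [Int.cast_add] at h1
      rw [h1]
      exact CharTwo.add_self_eq_zero _
    have h01 := hnot 0 1 (by decide)
    have h02 := hnot 0 2 (by decide)
    have h12 := hnot 1 2 (by decide)
    rw [e0, e1, e2] at hs
    rw [e0, e1] at h01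
    rw [e0, e2] at h02
    rw [e1, e2] at h12
    obtain ⟨b0, b1, hb0, hb1, hb2⟩ := loc_two _ _ _ _ _ _ h01 h02 h12 hs
    refine ⟨b0.val, b1.val, fun i => ?_⟩
    rw [ZMod.natCast_zmod_val, ZMod.natCast_zmod_val]
    fin_cases i
    · exact hb0
    · exact hb1
    · exact hb2

theorem loc_ : S_LOC := by
  intro M hM v w hc he
  have h1 : ∀ p : ℕ, ∃ b : ℕ × ℕ, p.Prime →
      ∀ i, ((v i : ZMod p) * (b.1 : ZMod p) + (w i : ZMod p) * (b.2 : ZMod p)) ≠ 0 := by
    intro p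
    by_cases hp : p.Prime
    · obtain ⟨b0, b1, hb⟩ := loc_prime p hp v w hc he
      exact ⟨(b0, b1), fun _ => hb⟩
    · exact ⟨(0, 0), fun h => absurd h hp⟩
  choose b hb using h1
  have hcop : Set.Pairwise (M.primeFactors : Set ℕ) (Function.onFun Nat.Coprime (fun p : ℕ => p)) := by
    intro p hp q hq hpq
    exact (Nat.coprime_primes (Nat.prime_of_mem_primeFactors hp)
      (Nat.prime_of_mem_primeFactors hq)).2 hpq
  have hne : ∀ p ∈ M.primeFactors, p ≠ 0 := fun p hp => (Nat.prime_of_mem_primeFactors hp).ne_zero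
  obtain ⟨a0, ha0⟩ := Nat.chineseRemainderOfFinset (fun p => (b p).1) (fun p => p) M.primeFactors
    hne hcop
  obtain ⟨a1, ha1⟩ := Nat.chineseRemainderOfFinset (fun p => (b p).2) (fun p => p) M.primeFactors
    hne hcop
  refine ⟨a0, a1, fun i => ?_⟩
  rw [Int.isCoprime_iff_gcd_eq_one]
  by_contra hg
  obtain ⟨p, hp, hpg⟩ := Nat.exists_prime_and_dvd hg
  have hpM : p ∣ M := by
    have := hpg.trans (Int.gcd_dvd_natAbs_right _ _)
    simpa using this
  have hpv : (p : ℤ) ∣ v i * a0 + w i * a1 :=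
    (Int.natCast_dvd_natCast.2 hpg).trans (Int.gcd_dvd_left _ _)
  have hmem : p ∈ M.primeFactors := Nat.mem_primeFactors.2 ⟨hp, hpM, by omega⟩
  have e0 : ((a0 : ℕ) : ZMod p) = ((b p).1 : ℕ) := (ZMod.natCast_eq_natCast_iff _ _ _).2 (ha0 p hmem)
  have e1 : ((a1 : ℕ) : ZMod p) = ((b p).2 : ℕ) := (ZMod.natCast_eq_natCast_iff _ _ _).2 (ha1 p hmem)
  apply hb p hp i
  rw [← e0, ← e1]
  have h2 := (ZMod.intCast_zmod_eq_zero_iff_dvd (v i * a0 + w i * a1) p).2 hpv
  push_cast at h2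
  exact h2

end Pool.Agent.N11.LB
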